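import Pool.Agent.Helper73.KM.KE
import Pool.Agent.Helper11.LV.StD
import Pool.Agent.Helper12.TX.Main

set_option autoImplicit false
set_option linter.unusedSectionVars false

/-!
# Ties without other overlap vectors, from the statement on the levels
-/

namespace Helper73.KM

open Helper11.N1 Helper55.KE Helper73.TM Helper55.KV

/-- no exact tie model with disjoint boxes -/
theorem neg_of_lx (hL : Helper11.LV.StLX) : StNeg := by
  refine neg_of ?_ ?_ ?_
  · intro p l a b k _ _ z i0 ρ τ hE hD hk1 hka h2a h2b hap hbp hρ W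
    have hb := hE.hP.hb
    exact (hL p l a b k z i0 ρ τ hE hD hk1 (by omega) h2a h2b hap hbp hρ).2 W
  · intro p l a b k _ _ z i0 ρ τ hE hD hk1 hka hab h2a h2b hap hbp hρ
    have h1 := (hL p l a b k z i0 ρ τ hE hD hk1 hka h2a h2b hap hbp hρ).1
    omega
  · intro p l a b k _ _ z i0 ρ τ y u hW
    exact hW.false

variable {p q a b c : ℕ} [NeZero p] [NeZero q] {z : ZMod p → ZMod (p * q)} {i0 ρ : ZMod p}
  {θ : ZMod (p * q)} {δ l : ℕ} {k : ℤ}

/-- a harmful tie and no other overlap vectors -/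
theorem kempty_of_lx (hL : Helper11.LV.StLX) (h : LS p q a b c z i0 ρ θ δ l k) (h2a : 2 * a < p)
    (h2b : 2 * b < p) (hap : a.Coprime p) (hbp : b.Coprime p)
    (hρ : ρ = (a : ZMod p) * b ∨ ρ = -((a : ZMod p) * b)) (hl2 : 2 ≤ l) (hk0 : k ≠ 0)
    (hka : |k| < a ∨ (c = 1 ∧ k = -a))
    (hNE : ∀ n m : ZMod p, z m - b * q = z n + ((1 - 2 * (c : ℤ) : ℤ) : ZMod (p * q)) → n - m ≠ b)
    (hKE : KEm p q a b ρ θ l) : False :=
  kempty_false (neg_of_lx hL) h h2a h2b hap hbp hρ hl2 hk0 hka hNE hKE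

end Helper73.KM
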