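import Pool.Agent.Helper73.KM.Lv

set_option autoImplicit false
set_option linter.unusedSectionVars false

/-!
# Ties without other overlap vectors
-/

namespace Helper73.KM

open Helper11.N1 Helper55.KE Helper73.TM Helper55.KV

variable {p q a b c : ℕ} [NeZero p] [NeZero q] {z : ZMod p → ZMod (p * q)} {i0 ρ : ZMod p}
  {θ : ZMod (p * q)} {δ l : ℕ} {k : ℤ}

/-- a harmful tie and no other overlap vectors -/
theorem kempty_false (hS : StNeg) (h : LS p q a b c z i0 ρ θ δ l k) (h2a : 2 * a < p)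
    (h2b : 2 * b < p) (hap : a.Coprime p) (hbp : b.Coprime p)
    (hρ : ρ = (a : ZMod p) * b ∨ ρ = -((a : ZMod p) * b)) (hl2 : 2 ≤ l) (hk0 : k ≠ 0)
    (hka : |k| < a ∨ (c = 1 ∧ k = -a))
    (hNE : ∀ n m : ZMod p, z m - b * q = z n + ((1 - 2 * (c : ℤ) : ℤ) : ZMod (p * q)) → n - m ≠ b)
    (hKE : KEm p q a b ρ θ l) : False := by
  rcases lt_or_gt_of_ne hk0 with h1 | h1
  · have h3 : 0 ≤ -k := by omega
    have h2 : k = -((-k).toNat : ℤ) := by
      rw [Int.toNat_of_nonneg h3]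
      ring
    have h4 := Int.toNat_of_nonneg h3
    refine kv_pos_false h h2a h2b hap hρ hl2 h2 (by omega) ?_ hNE hKE
    rcases hka with h5 | ⟨h5, h6⟩
    · rw [abs_lt] at h5
      exact Or.inl (by omega)
    · exact Or.inr ⟨h5, by omega⟩
  · refine kv_neg_false hS h h2a h2b hap hbp hρ hl2 (by omega) ?_ hNE hKE
    rcases hka with h5 | ⟨h5, h6⟩
    · rw [abs_lt] at h5
      exact h5.2
    · omega

end Helper73.KM
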