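import Pool.Agent.Helper73.KM.Neg
import Pool.Agent.Helper12.TX.Defs
import Pool.Agent.Helper11.N1.M_LEV
import Pool.Agent.Helper11.LV.Defs

set_option autoImplicit false
set_option linter.unusedSectionVars false

/-!
# The exact tie model: from normal levels to the world `TW`
-/

namespace Helper73.KM

open Helper11.N1 Helper55.KE Helper73.TM Helper12.TX

/-- all levels of an exact tie model with disjoint boxes are in normal form -/
def StLEVx : Prop := ∀ (p l a b k : ℕ) [NeZero p] [NeZero l] (z : ZMod p → ZMod (p * l))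
  (i0 ρ : ZMod p) (τ : ZMod (p * l)), EX p l a b z i0 ρ τ (k : ℤ) → Disj l a b z → 1 ≤ k →
  b + k ≤ a → 2 * a < p → 2 * b < p → a.Coprime p → b.Coprime p →
  (ρ = (a : ZMod p) * b ∨ ρ = -((a : ZMod p) * b)) → ∀ W : ZMod p, Helper11.LV.Nrm l a b z W

/-- no exact tie model with disjoint boxes and `a < b + k` -/
def StV1x : Prop := ∀ (p l a b k : ℕ) [NeZero p] [NeZero l] (z : ZMod p → ZMod (p * l))
  (i0 ρ : ZMod p) (τ : ZMod (p * l)), EX p l a b z i0 ρ τ (k : ℤ) → Disj l a b z → 1 ≤ k →
  k < a → a < b + k → 2 * a < p → 2 * b < p → a.Coprime p → b.Coprime p →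
  (ρ = (a : ZMod p) * b ∨ ρ = -((a : ZMod p) * b)) → False

/-- the world does not exist -/
def StTWf : Prop := ∀ (p l a b k : ℕ) [NeZero p] [NeZero l] (z : ZMod p → ZMod (p * l))
  (i0 ρ : ZMod p) (τ : ZMod (p * l)) (y u : ZMod p → ZMod (p * l) → ℤ),
  TW p l a b k z i0 ρ τ y u → False

/-- a level in normal form, expressed with `y` and `u` -/
theorem tlvl_of_nrm {p l a b : ℕ} [NeZero p] [NeZero l] {z : ZMod p → ZMod (p * l)}
    (hD : Disj l a b z) {W : ZMod p} (h : Helper11.LV.Nrm l a b z W) :
    ∃ y u : ZMod (p * l) → ℤ, TLvl l a b z W y u := by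
  obtain ⟨lam, rho, c, hLD, h1, h2⟩ := h
  refine ⟨fun X => c - lam X, fun S => rho S + c, ?_⟩
  refine
    { y01 := fun X => ?_
      u01 := fun S => ?_
      yJ := fun X => ?_
      uJ := fun S => ?_
      inn := fun j X hb => ?_
      out := fun X hb => ?_
      flat := fun j X S hb hu => ?_ }
  · rcases h1 X with h | h
    · left
      show c - lam X = 0
      rw [h]; ring
    · right
      show c - lam X = 1
      rw [h]; ring
  · rcases h2 S with h | h
    · left
      show rho S + c = 0
      rw [h]; ring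
    · right
      show rho S + c = 1
      rw [h]; ring
  · have h3 := hLD.lj X
    show c - lam (X + 1) - (c - lam X) = _
    linarith
  · have h3 := hLD.rj S
    show rho (S + 1) + c - (rho S + c) = _
    linarith
  · have h3 := hLD.line X
    rw [LEVaux.NN_one hD hb] at h3
    have h4 := h1 X
    have h5 := h2 (X + e p l W)
    show c - lam X = 1 ∧ rho (X + e p l W) + c = 0
    omega
  · have h3 := hLD.line X
    rw [LEVaux.NN_zero hb] at h3
    show c - lam X = rho (X + e p l W) + c
    omega
  · have h3 := hLD.up X S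
    rw [LEVaux.NN_one hD hb] at h3
    have h4 := h1 X
    have hu' : rho S + c = 1 := hu
    show c - lam X = 1
    omega

/-- no exact tie model with disjoint boxes -/
theorem neg_of (hL : StLEVx) (hV : StV1x) (hT : StTWf) : StNeg := by
  intro p l a b k _ _ z i0 ρ τ hE hD hk1 hka h2a h2b hap hbp hρ
  rcases Nat.lt_or_ge a (b + k) with h | h
  · exact hV p l a b k z i0 ρ τ hE hD hk1 hka h h2a h2b hap hbp hρ
  · have h1 : ∀ W : ZMod p, ∃ y u : ZMod (p * l) → ℤ, TLvl l a b z W y u := fun W =>
      tlvl_of_nrm hD (hL p l a b k z i0 ρ τ hE hD hk1 h h2a h2b hap hbp hρ W)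
    choose y u hyu using h1
    exact hT p l a b k z i0 ρ τ y u
      { hE := hE, hD := hD, hk := hk1, hka := h, h2a := h2a, hap := hap, hbp := hbp, hW := hyu }

end Helper73.KM
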