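import Pool.Agent.Helper73.TM.Fl
import Pool.Agent.Helper55.KV.Main
import Pool.Agent.Helper25.FLT.B3

set_option autoImplicit false
set_option linter.unusedSectionVars false

/-!
# No overlap vectors and a tie of negative class: reduction to the exact tie model
-/

namespace Helper73.KM

open Helper11.N1 Helper55.KE Helper73.TM Helper25.FLT Helper55.KV

/-- no exact tie model with disjoint boxes and `k ≥ 1` -/
def StNeg : Prop := ∀ (p l a b k : ℕ) [NeZero p] [NeZero l] (z : ZMod p → ZMod (p * l))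
  (i0 ρ : ZMod p) (τ : ZMod (p * l)), EX p l a b z i0 ρ τ (k : ℤ) → Disj l a b z → 1 ≤ k → k < a →
  2 * a < p → 2 * b < p → a.Coprime p → b.Coprime p →
  (ρ = (a : ZMod p) * b ∨ ρ = -((a : ZMod p) * b)) → False

section

variable {p q a b c : ℕ} [NeZero p] [NeZero q] {z : ZMod p → ZMod (p * q)} {i0 ρ : ZMod p}
  {θ : ZMod (p * q)} {δ l : ℕ} {k : ℤ}

/-- the condition on the overlap vectors is symmetric -/
theorem kem_rev (hKE : KEm p q a b ρ θ l) (hlq : l < q) : KEm p q a b (-ρ) (-θ) (q - l) := by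
  intro n hn0 hn h1 h2 x r hat hxy
  refine hKE n hn0 hn (by omega) (by omega) (-x) (-r) ⟨?_, ?_⟩ ⟨?_, ?_⟩
  · have h3 := hat.hx
    push_cast at h3 ⊢
    linear_combination -h3
  · have h3 := hat.hr
    push_cast at h3 ⊢
    linear_combination -h3
  · rw [abs_neg]
    exact hxy.1
  · have h3 : -x + -r * (q : ℤ) = -(x + r * q) := by ring
    rw [h3, abs_neg]
    exact hxy.2

/-- a harmful tie of the second kind -/
theorem tie2_false (h : LS p q a b c z i0 ρ θ δ l k) (h2a : 2 * a < p) (h2b : 2 * b < p)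
    (hap : a.Coprime p) (hρ : ρ = (a : ZMod p) * b ∨ ρ = -((a : ZMod p) * b)) (hk1 : 1 ≤ k)
    (hka : k < a)
    (hNE : ∀ n m : ZMod p, z m - b * q = z n + ((1 - 2 * (c : ℤ) : ℤ) : ZMod (p * q)) → n - m ≠ b)
    (hKE : KEm p q a b ρ θ l) (hT : Tie2 q a b c l z i0 ρ) : False := by
  obtain ⟨n, m, hn, hm, hnm, hM, κ, hκ, hκa⟩ := hT
  have hpq := h.hpq
  have hl := h.hl
  have hc := h.hB.hc
  have hne := hNE _ _ hM
  obtain ⟨σ, hσ, hρσ⟩ : ∃ σ : ℤ, (σ = 1 ∨ σ = -1) ∧ ρ = (σ : ZMod p) * ((a : ZMod p) * b) := by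
    rcases hρ with h1 | h1
    · exact ⟨1, Or.inl rfl, by rw [h1]; push_cast; ring⟩
    · exact ⟨-1, Or.inr rfl, by rw [h1]; push_cast; ring⟩
  have hbq := LS.bq h
  have hqρ : (q : ZMod p) * ρ = ((-(σ * (1 - 2 * (c : ℤ)) * a) : ℤ) : ZMod p) := by
    rw [hρσ]
    push_cast at hbq ⊢
    linear_combination (σ : ZMod p) * (a : ZMod p) * hbq
  have hκ2 : (κ : ZMod p) = ((-(k + σ * (1 - 2 * (c : ℤ)) * a) : ℤ) : ZMod p) := by
    have h1 := h.hrl
    have h2 : (m : ZMod p) + (l : ZMod p) = (n : ZMod p) + (q : ZMod p) := by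
      exact_mod_cast congrArg (Nat.cast : ℕ → ZMod p) hnm
    rw [hκ]
    push_cast at h1 hqρ ⊢
    linear_combination ρ * h2 - h1 + hqρ
  have hκ0 : κ ≠ 0 := by
    rintro rfl
    apply hne
    rw [Int.cast_zero] at hκ
    linear_combination hκ
  -- the sign of the class
  have hκ1 : 0 < κ := by
    by_contra hcon
    have h1 : κ < 0 := by omega
    have h2 : |κ| < a := by
      rcases hκa with h3 | ⟨_, h3⟩
      · exact h3
      · omega
    rw [abs_lt] at h2
    rw [ZMod.intCast_eq_intCast_iff_dvd_sub] at hκ2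
    obtain ⟨t, ht⟩ := hκ2
    have hp0 : (0 : ℤ) < p := by omega
    have hb : ∀ s : ℤ, (s = a ∨ s = -(a : ℤ)) → -(k + s) - κ = p * t → False := by
      intro s hs h3
      have h4 : t = 0 := by
        have h5 : (p : ℤ) * t < p * 1 := by rcases hs with rfl | rfl <;> omega
        have h6 : (p : ℤ) * (-1) < p * t := by rcases hs with rfl | rfl <;> omega
        have h7 := lt_of_mul_lt_mul_left h5 hp0.le
        have h8 := lt_of_mul_lt_mul_left h6 hp0.le
        omega
      rw [h4, mul_zero] at h3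
      rcases hs with rfl | rfl <;> omega
    rcases hσ with rfl | rfl <;> rcases (by omega : c = 0 ∨ c = 1) with rfl | rfl
    · exact hb a (Or.inl rfl) (by rw [← ht]; push_cast; ring)
    · exact hb (-(a : ℤ)) (Or.inr rfl) (by rw [← ht]; push_cast; ring)
    · exact hb (-(a : ℤ)) (Or.inr rfl) (by rw [← ht]; push_cast; ring)
    · exact hb a (Or.inl rfl) (by rw [← ht]; push_cast; ring)
  have hrev := LS.rev2 h hρσ (by omega) (k' := -κ) (by
    push_cast at hκ2 ⊢
    linear_combination -hκ2)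
  obtain ⟨K, rfl⟩ := Int.eq_ofNat_of_zero_le hκ1.le
  refine kv_pos_false hrev h2a h2b hap ?_ (by omega) rfl (by omega) ?_ hNE
    (kem_rev hKE (by omega))
  · rcases hρ with h1 | h1
    · exact Or.inr (by rw [h1])
    · exact Or.inl (by rw [h1, neg_neg])
  · rcases hκa with h3 | ⟨h3, h4⟩
    · rw [Nat.abs_cast] at h3
      exact Or.inl (by omega)
    · exact Or.inr ⟨h3, by omega⟩

/-- the exact model has no overlap vectors -/
theorem kk_false (h : LS p q a b c z i0 ρ θ δ l k) (h2b : 2 * b < p)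
    (hT : ¬ Tie2 q a b c l z i0 ρ) (hKE : KEm p q a b ρ θ l) {n : ℕ} (hnl : n ≠ l) {x y : ℤ}
    (hK : KK p q a b θ (θ + e p q ρ) n x y) : False := by
  obtain ⟨hn0, hn, hx, hy, hxb, hya⟩ := hK
  have hpq := h.hpq
  have hl := h.hl
  have hc := h.hB.hc
  have hp0 : 0 < p := by omega
  have hq0 : (0 : ℤ) < q := by omega
  -- the row difference
  have he : (n : ZMod (p * q)) * e p q ρ = ((y - x : ℤ) : ZMod (p * q)) := by
    push_cast
    linear_combination hy - hx
  have hr : ∃ r : ℤ, y = x + r * q ∧ (n : ZMod p) * ρ = (r : ZMod p) := by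
    have h1 : e p q ((n : ZMod p) * ρ) = ((y - x : ℤ) : ZMod (p * q)) := by
      rw [e_mul, he]
    have h2 : ((n : ZMod p) * ρ) = ((((n : ZMod p) * ρ).val : ℕ) : ZMod p) :=
      (ZMod.natCast_zmod_val _).symm
    rw [h2, e_natCast] at h1
    have h3 : ((((((n : ZMod p) * ρ).val * q : ℕ)) : ℤ) : ZMod (p * q)) =
        ((y - x : ℤ) : ZMod (p * q)) := by
      rw [Int.cast_natCast, h1]
    rw [ZMod.intCast_eq_intCast_iff_dvd_sub] at h3
    obtain ⟨s, hs⟩ := h3
    push_cast at hs
    refine ⟨(((n : ZMod p) * ρ).val : ℕ) + p * s, by linear_combination hs, ?_⟩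
    push_cast
    rw [ZMod.natCast_self, zero_mul, add_zero, ZMod.natCast_zmod_val]
  obtain ⟨r, hyr, hr⟩ := hr
  by_cases hnq : n + l = q
  · -- the index of the second ties
    apply hT
    have hqθ := LS.qθ h
    have hxl := h.hxl
    have hcast : (n : ZMod (p * q)) + (l : ZMod (p * q)) = (q : ZMod (p * q)) := by
      exact_mod_cast congrArg (Nat.cast : ℕ → ZMod (p * q)) hnq
    have h1 : (n : ZMod (p * q)) * θ = ((b * q + (1 - 2 * c) : ℤ) : ZMod (p * q)) := by
      push_cast at hxl ⊢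
      linear_combination θ * hcast - hxl + hqθ
    have h2 : x = b * q + (1 - 2 * c) := by
      rw [hx, ZMod.intCast_eq_intCast_iff_dvd_sub] at h1
      obtain ⟨t, ht⟩ := h1
      push_cast at ht
      rw [abs_lt] at hxb
      have h3 : (2 * b : ℤ) * q + q ≤ p * q := by
        have : ((2 * b + 1 : ℕ) : ℤ) * q ≤ p * q :=
          mul_le_mul_of_nonneg_right (by exact_mod_cast h2b) hq0.le
        push_cast at this
        linarith
      have hpq0 : (0 : ℤ) < p * q := by positivity
      have hq2 : (2 : ℤ) ≤ q := by omega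
      have h5 : (p : ℤ) * q * t < p * q * 1 := by
        rcases (by omega : c = 0 ∨ c = 1) with rfl | rfl <;> push_cast at ht <;> linarith
      have h6 : (p : ℤ) * q * (-1) < p * q * t := by
        rcases (by omega : c = 0 ∨ c = 1) with rfl | rfl <;> push_cast at ht <;> linarith
      have h7 := lt_of_mul_lt_mul_left h5 hpq0.le
      have h8 := lt_of_mul_lt_mul_left h6 hpq0.le
      have h9 : t = 0 := by omega
      rw [h9, mul_zero] at ht
      linarith
    have hc1 : c = 1 := by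
      by_contra hc1
      have : c = 0 := by omega
      subst this
      rw [h2, abs_lt] at hxb
      push_cast at hxb
      omega
    have hz0 : z (i0 + ((0 : ℕ) : ZMod p) * ρ) = z i0 := by
      rw [Nat.cast_zero, zero_mul, add_zero]
    refine ⟨0, n, hp0, hn, by omega, ?_, r + b, ?_, ?_⟩
    · rw [h.hAP.2 n hn, hz0, h1]
      push_cast
      ring
    · push_cast
      rw [← hr]
      ring
    · rw [hyr, h2, hc1, abs_lt] at hya
      have e1 : (b : ℤ) * q + (1 - 2 * ((1 : ℕ) : ℤ)) + r * q = (r + b) * q - 1 := by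
        push_cast
        ring
      rw [e1] at hya
      have g1 : r + b ≤ a := by
        by_contra hcon
        have : ((a : ℤ) + 1) * q ≤ (r + b) * q := mul_le_mul_of_nonneg_right (by omega) hq0.le
        have h3 : (2 : ℤ) ≤ q := by omega
        linarith
      have g2 : -(a : ℤ) < r + b := by
        by_contra hcon
        have : (r + b) * (q : ℤ) ≤ (-(a : ℤ)) * q := mul_le_mul_of_nonneg_right (by omega) hq0.le
        linarith
      rcases lt_or_eq_of_le g1 with g3 | g3
      · exact Or.inl (abs_lt.2 ⟨g2, g3⟩)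
      · exact Or.inr ⟨hc1, g3⟩
  · refine hKE n hn0 hn hnl hnq x r ⟨hx, hr⟩ ⟨hxb, ?_⟩
    rw [← hyr]
    exact hya

/-- a tie of negative class and no other overlap vectors -/
theorem kv_neg_false (hS : StNeg) (h : LS p q a b c z i0 ρ θ δ l k) (h2a : 2 * a < p)
    (h2b : 2 * b < p) (hap : a.Coprime p) (hbp : b.Coprime p)
    (hρ : ρ = (a : ZMod p) * b ∨ ρ = -((a : ZMod p) * b)) (hl2 : 2 ≤ l) (hk1 : 1 ≤ k)
    (hka : k < a)
    (hNE : ∀ n m : ZMod p, z m - b * q = z n + ((1 - 2 * (c : ℤ) : ℤ) : ZMod (p * q)) → n - m ≠ b)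
    (hKE : KEm p q a b ρ θ l) : False := by
  by_cases hT : Tie2 q a b c l z i0 ρ
  · exact tie2_false h h2a h2b hap hρ hk1 hka hNE hKE hT
  have : NeZero l := ⟨by omega⟩
  obtain ⟨z', τ, hE, hKK⟩ := exists_ex h hl2 hbp h2b hT
  obtain ⟨K, rfl⟩ := Int.eq_ofNat_of_zero_le (show 0 ≤ k by omega)
  refine hS p l a b K z' i0 ρ τ hE (disj_of_kk hE.hP hE.hAP ?_) (by omega) (by omega) h2a h2b hap
    hbp hρ
  intro n X Y hK
  obtain ⟨hnl, x, y, -, -, hK'⟩ := hKK n X Y hK
  exact kk_false h h2b hT hKE hnl hK'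

end

end Helper73.KM
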